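import Mathlib
import Pool.Agent.R591.GR.Main

set_option autoImplicit false

/-!
# MP_50136b_lc: reversible or good `ℵ₁`-dense orders

If there is a good `ℵ₁`-dense set of reals, then there is an `ℵ₁`-dense set of reals which is
neither reversible nor good. So the statement of Q1 fails in every model of `MA` which has a good
`ℵ₁`-dense set (such models exist by the listed theorem of Avraham and Shelah).
-/

namespace Pool.Agent.Results.MP_50136b_lc.MixedOrder

open Pool.Agent.R591.GR

/-- (1) If some `ℵ₁`-dense set of reals is good, then some `ℵ₁`-dense set of reals is neither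
reversible nor good. (2) Hence every `ℵ₁`-dense set of reals is reversible or good if and only if
every `ℵ₁`-dense set of reals is reversible. -/
theorem result :
    ((∃ B : Set ℝ, AlephOneDense B ∧ Good B) →
      ∃ A : Set ℝ, AlephOneDense A ∧ ¬ Reversible A ∧ ¬ Good A) ∧
    ((∀ A : Set ℝ, AlephOneDense A → Reversible A ∨ Good A) ↔
      ∀ A : Set ℝ, AlephOneDense A → Reversible A) := by
  refine ⟨exists_mixed, ?_, fun h A hA => Or.inl (h A hA)⟩
  intro h A hA
  rcases h A hA with h1 | h1
  · exact h1
  · obtain ⟨B, hB, hB1, hB2⟩ := exists_mixed ⟨A, hA, h1⟩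
    rcases h B hB with h2 | h2
    · exact absurd h2 hB1
    · exact absurd h2 hB2

end Pool.Agent.Results.MP_50136b_lc.MixedOrder
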